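import Pool.Agent.Y752.QF.Stm
import Pool.Agent.Y752.SR.K4
import Pool.Agent.TH612.CF.Tau

set_option autoImplicit false

/-! Project QF, job QF-BX: the box sum and the hyperbolic sum in mean square. -/

namespace Pool.Agent.Y165.QF.Bx

open MeasureTheory Set Filter Complex Topology
open Pool.Agent.TH612.GS (mP zN)
open Pool.Agent.TH612.CF (pw pw_apply tauA tauA_apply tauA_succ tau_nil)
open Pool.Agent.W182.KO (tau)
open Pool.Agent.Y752.QF
open Pool.Agent.Y752.SR (sum_inv_le logp_le chs tls EE EEp_le)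
open scoped ENNReal

noncomputable section

variable {k : ℕ}

lemma prod_pw : ∀ {k : ℕ} (l : Fin k → ℂ), ∏ j, pw (l j) = tauA l
  | 0, l => by
      rw [Finset.univ_eq_empty, Finset.prod_empty]
      ext n
      rw [tauA_apply, tau_nil, ArithmeticFunction.one_apply]
  | k + 1, l => by
      rw [Fin.prod_univ_succ, prod_pw, ← tauA_succ]

/-- the box -/
def box (k Y : ℕ) : Finset (Fin k → ℕ) := Fintype.piFinset (fun _ : Fin k => Finset.Icc 1 Y)

lemma mem_box {Y : ℕ} {n : Fin k → ℕ} : n ∈ box k Y ↔ ∀ j, 1 ≤ n j ∧ n j ≤ Y := by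
  unfold box
  rw [Fintype.mem_piFinset]
  simp only [Finset.mem_Icc]

/-- the product -/
def pr (n : Fin k → ℕ) : ℕ := ∏ j, n j

lemma pr_pos {Y : ℕ} {n : Fin k → ℕ} (h : n ∈ box k Y) : 0 < pr n :=
  Finset.prod_pos fun j _ => (mem_box.1 h j).1

/-- the coefficient -/
def cf (n : Fin k → ℕ) : ℂ := ((hw (Nat.sqrt (pr n)) : ℝ) : ℂ) * ((Nat.sqrt (pr n) : ℕ) : ℂ)⁻¹

/-- the term -/
def FF (γ : Fin k → ℝ) (n : Fin k → ℕ) : ℂ := cf n * ∏ j, chs true (n j) (γ j)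

lemma hw_nonneg (n : ℕ) : 0 ≤ hw n := by
  unfold hw
  exact Finset.prod_nonneg fun p _ => by positivity

lemma hw_le (n : ℕ) : hw n ≤ 1 := by
  unfold hw
  refine Finset.prod_le_one (fun p _ => by positivity) fun p _ => ?_
  rw [div_le_one (by positivity)]
  linarith

lemma hw_sq {m : ℕ} : hw (m * m) = hw m := by
  unfold hw
  rw [← pow_two, Nat.primeFactors_pow _ two_ne_zero]

lemma term_eq {Y : ℕ} (γ : Fin k → ℝ) {n : Fin k → ℕ} (hn : n ∈ box k Y) (hs : IsSquare (pr n)) :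
    ((hw (pr n) : ℝ) : ℂ) * ∏ j, (n j : ℂ) ^ (-(1 / 2 + I * (γ j : ℂ))) = FF γ n := by
  obtain ⟨m, hm⟩ := hs
  have hp := pr_pos hn
  have hm0 : 0 < m := by
    rcases Nat.eq_zero_or_pos m with h | h
    · rw [h] at hm; omega
    · exact h
  have hsq : Nat.sqrt (pr n) = m := by rw [hm, Nat.sqrt_eq]
  unfold FF cf
  rw [hsq]
  have e1 : ∀ j, (n j : ℂ) ^ (-(1 / 2 + I * (γ j : ℂ))) =
      (((n j : ℝ) ^ (-(1 / 2) : ℝ) : ℝ) : ℂ) * chs true (n j) (γ j) := by
    intro j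
    have hj : (n j : ℂ) ≠ 0 := by
      have := (mem_box.1 hn j).1
      exact_mod_cast (by omega : n j ≠ 0)
    unfold chs
    rw [if_pos rfl, neg_add, Complex.cpow_add _ _ hj, Complex.ofReal_cpow (by positivity)]
    push_cast
    ring_nf
  simp only [e1]
  rw [Finset.prod_mul_distrib, ← mul_assoc]
  congr 1
  rw [hm, hw_sq]
  congr 1
  rw [← Complex.ofReal_prod, Real.finsetProd_rpow _ _ (fun j _ => by positivity)]
  have e2 : ∏ j, (n j : ℝ) = (m : ℝ) ^ 2 := by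
    have : ((pr n : ℕ) : ℝ) = (m : ℝ) * m := by rw [hm]; push_cast; ring
    unfold pr at this
    push_cast at this
    rw [this, pow_two]
  rw [e2, ← Real.rpow_natCast, ← Real.rpow_mul (by positivity)]
  have e3 : ((2 : ℕ) : ℝ) * (-(1 / 2) : ℝ) = -1 := by norm_num
  rw [e3, Real.rpow_neg_one]
  push_cast
  rfl

open Classical in
lemma DS_eq (Y : ℕ) (γ : Fin k → ℝ) :
    DS Y γ = ∑ n ∈ (box k Y).filter (fun n => IsSquare (pr n)), FF γ n := by
  unfold DS
  rw [Finset.sum_filter]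
  refine Finset.sum_congr rfl fun n hn => ?_
  by_cases h : IsSquare (pr n)
  · rw [if_pos h]
    have h' : IsSquare (∏ j, n j) := h
    rw [if_pos h']
    exact term_eq γ hn h
  · rw [if_neg h]
    have h' : ¬ IsSquare (∏ j, n j) := h
    rw [if_neg h']
    push_cast
    rw [zero_mul]

open Classical in
lemma AN_eq {Y N : ℕ} (hNY : N ^ 2 ≤ Y) (γ : Fin k → ℝ) :
    AN2 N γ = ∑ n ∈ (box k Y).filter (fun n => IsSquare (pr n) ∧ pr n ≤ N ^ 2), FF γ n := by
  have hmaps : ∀ n ∈ (box k Y).filter (fun n => IsSquare (pr n) ∧ pr n ≤ N ^ 2),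
      Nat.sqrt (pr n) ∈ Finset.Icc 1 N := by
    intro n hn
    obtain ⟨h1, ⟨m, hm⟩, h3⟩ := Finset.mem_filter.1 hn
    have hp := pr_pos h1
    have hsq : Nat.sqrt (pr n) = m := by rw [hm, Nat.sqrt_eq]
    rw [hsq, Finset.mem_Icc]
    constructor
    · rcases Nat.eq_zero_or_pos m with h | h
      · rw [h] at hm; omega
      · exact h
    · by_contra hcon
      have : N < m := not_le.1 hcon
      rw [hm] at h3
      nlinarith
  rw [← Finset.sum_fiberwise_of_maps_to hmaps]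
  unfold AN2
  refine Finset.sum_congr rfl fun m hm => ?_
  obtain ⟨hm1, hm2⟩ := Finset.mem_Icc.1 hm
  unfold D2
  rw [prod_pw, tauA_apply]
  unfold tau
  have hfib : ((box k Y).filter (fun n => IsSquare (pr n) ∧ pr n ≤ N ^ 2)).filter
      (fun n => Nat.sqrt (pr n) = m) = Nat.finMulAntidiag k (m ^ 2) := by
    ext n
    rw [Finset.mem_filter, Finset.mem_filter, Nat.mem_finMulAntidiag]
    constructor
    · rintro ⟨⟨h1, ⟨q, hq⟩, h3⟩, h4⟩
      rw [hq, Nat.sqrt_eq] at h4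
      refine ⟨?_, by positivity⟩
      have : pr n = m ^ 2 := by rw [hq, h4, pow_two]
      exact this
    · rintro ⟨h1, h2⟩
      have h1' : pr n = m * m := by
        unfold pr; rw [h1, pow_two]
      have hm2' : m * m ≤ N ^ 2 := by nlinarith
      refine ⟨⟨mem_box.2 fun j => ?_, ⟨m, h1'⟩, by rw [h1']; exact hm2'⟩, by rw [h1', Nat.sqrt_eq]⟩
      have hd : n j ∣ m ^ 2 := by
        rw [← h1]; exact Finset.dvd_prod_of_mem _ (Finset.mem_univ j)
      have hpos : 0 < m ^ 2 := by positivity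
      refine ⟨Nat.pos_of_dvd_of_pos hd hpos, ?_⟩
      have h5 := Nat.le_of_dvd hpos hd
      nlinarith
  rw [hfib, mul_div_assoc, Finset.sum_div, Finset.mul_sum]
  refine Finset.sum_congr rfl fun n hn => ?_
  obtain ⟨h1, h2⟩ := Nat.mem_finMulAntidiag.1 hn
  have hsq : Nat.sqrt (pr n) = m := by
    have h1' : pr n = m * m := by
      unfold pr; rw [h1, pow_two]
    rw [h1', Nat.sqrt_eq]
  unfold FF cf
  rw [hsq]
  have e1 : ∏ j, (n j : ℂ) ^ (-(I * (γ j : ℂ))) = ∏ j, chs true (n j) (γ j) := by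
    refine Finset.prod_congr rfl fun j _ => ?_
    unfold chs
    rw [if_pos rfl]
  rw [e1, div_eq_mul_inv]
  ring

open Classical in
/-- the remaining tuples -/
def rest (k Y N : ℕ) : Finset (Fin k → ℕ) :=
  (box k Y).filter (fun n => IsSquare (pr n) ∧ N ^ 2 < pr n)

lemma diff_eq {Y N : ℕ} (hNY : N ^ 2 ≤ Y) (γ : Fin k → ℝ) :
    DS Y γ - AN2 N γ = ∑ n ∈ rest k Y N, FF γ n := by
  classical
  rw [DS_eq, AN_eq hNY, sub_eq_iff_eq_add]
  unfold rest
  have h1 := Finset.sum_filter_add_sum_filter_not ((box k Y).filter (fun n => IsSquare (pr n)))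
    (fun n => N ^ 2 < pr n) (FF γ)
  rw [← h1, Finset.filter_filter, Finset.filter_filter]
  simp only [not_lt]

lemma card_fib (Y N m : ℕ) (hm : 1 ≤ m) :
    ((rest k Y N).filter (fun n => Nat.sqrt (pr n) = m)).card ≤ (m * m).divisors.card ^ k := by
  classical
  have h1 : (rest k Y N).filter (fun n => Nat.sqrt (pr n) = m) ⊆
      Fintype.piFinset (fun _ : Fin k => (m * m).divisors) := by
    intro n hn
    obtain ⟨h2, h3⟩ := Finset.mem_filter.1 hn
    unfold rest at h2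
    obtain ⟨h4, ⟨q, hq⟩, _⟩ := Finset.mem_filter.1 h2
    rw [hq, Nat.sqrt_eq] at h3
    rw [Fintype.mem_piFinset]
    intro j
    rw [Nat.mem_divisors]
    refine ⟨?_, by positivity⟩
    rw [← h3, ← hq]
    exact Finset.dvd_prod_of_mem _ (Finset.mem_univ j)
  refine (Finset.card_le_card h1).trans ?_
  rw [Fintype.card_piFinset, Finset.prod_const, Finset.card_univ, Fintype.card_fin]

lemma rest_sum {Y N : ℕ} (hN : 1 ≤ N) (hY : 1 ≤ Y) :
    ∑ n ∈ rest k Y N, ‖cf n‖ ^ 2 ≤ (EE (Y ^ k) : ℝ) ^ k * (1 + Real.log ((Y : ℝ) ^ k)) / N := by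
  classical
  have hN0 : (0:ℝ) < N := by exact_mod_cast hN
  have hterm : ∀ n ∈ rest k Y N, ‖cf n‖ ^ 2 ≤ (1 / N) * ((Nat.sqrt (pr n) : ℕ) : ℝ)⁻¹ := by
    intro n hn
    unfold rest at hn
    obtain ⟨h4, ⟨q, hq⟩, h5⟩ := Finset.mem_filter.1 hn
    have hsq : Nat.sqrt (pr n) = q := by rw [hq, Nat.sqrt_eq]
    have hNq : N < q := by
      by_contra hcon
      have : q ≤ N := not_lt.1 hcon
      rw [hq] at h5
      nlinarith
    have hq0 : (0:ℝ) < q := by
      have : 0 < q := by omega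
      exact_mod_cast this
    unfold cf
    rw [hsq, norm_mul, norm_inv, Complex.norm_natCast, Complex.norm_real, Real.norm_eq_abs,
      abs_of_nonneg (hw_nonneg _)]
    have h1 : hw q * (q : ℝ)⁻¹ ≤ 1 * (q : ℝ)⁻¹ :=
      mul_le_mul_of_nonneg_right (hw_le q) (by positivity)
    have h0 : 0 ≤ hw q * (q : ℝ)⁻¹ := mul_nonneg (hw_nonneg _) (by positivity)
    have h2 : (q : ℝ)⁻¹ ≤ 1 / N := by
      rw [inv_eq_one_div]
      exact one_div_le_one_div_of_le hN0 (by exact_mod_cast hNq.le)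
    calc (hw q * (q : ℝ)⁻¹) ^ 2 ≤ ((q : ℝ)⁻¹) ^ 2 := by
          rw [one_mul] at h1
          gcongr
      _ = (q : ℝ)⁻¹ * (q : ℝ)⁻¹ := pow_two _
      _ ≤ (1 / N) * (q : ℝ)⁻¹ := by gcongr
  refine (Finset.sum_le_sum hterm).trans ?_
  rw [← Finset.mul_sum]
  have hmaps : ∀ n ∈ rest k Y N, Nat.sqrt (pr n) ∈ Finset.Icc 1 (Y ^ k) := by
    intro n hn
    unfold rest at hn
    obtain ⟨h4, ⟨q, hq⟩, h5⟩ := Finset.mem_filter.1 hn
    have hsq : Nat.sqrt (pr n) = q := by rw [hq, Nat.sqrt_eq]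
    have hp := pr_pos h4
    have hq1 : 1 ≤ q := by
      rcases Nat.eq_zero_or_pos q with h | h
      · rw [h] at hq; omega
      · exact h
    rw [hsq, Finset.mem_Icc]
    refine ⟨hq1, ?_⟩
    have h6 : pr n ≤ Y ^ k := by
      unfold pr
      calc ∏ j, n j ≤ ∏ _j : Fin k, Y := Finset.prod_le_prod' fun j _ => (mem_box.1 h4 j).2
        _ = Y ^ k := by rw [Finset.prod_const, Finset.card_univ, Fintype.card_fin]
    calc q = q * 1 := (mul_one q).symm
      _ ≤ q * q := Nat.mul_le_mul_left _ hq1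
      _ = pr n := hq.symm
      _ ≤ Y ^ k := h6
  rw [← Finset.sum_fiberwise_of_maps_to hmaps]
  have hYk : 1 ≤ Y ^ k := Nat.one_le_pow _ _ hY
  have hfib : ∀ m ∈ Finset.Icc 1 (Y ^ k), ∑ n ∈ (rest k Y N).filter (fun n => Nat.sqrt (pr n) = m),
      ((Nat.sqrt (pr n) : ℕ) : ℝ)⁻¹ ≤ (EE (Y ^ k) : ℝ) ^ k * (m : ℝ)⁻¹ := by
    intro m hm
    obtain ⟨hm1, hm2⟩ := Finset.mem_Icc.1 hm
    have h1 : ∑ n ∈ (rest k Y N).filter (fun n => Nat.sqrt (pr n) = m),
        ((Nat.sqrt (pr n) : ℕ) : ℝ)⁻¹ =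
        (((rest k Y N).filter (fun n => Nat.sqrt (pr n) = m)).card : ℝ) * (m : ℝ)⁻¹ := by
      rw [Finset.sum_congr rfl fun n hn => by rw [(Finset.mem_filter.1 hn).2], Finset.sum_const,
        nsmul_eq_mul]
    rw [h1]
    refine mul_le_mul_of_nonneg_right ?_ (by positivity)
    have h2 := card_fib (k := k) Y N m hm1
    have h3 : (m * m).divisors.card ≤ EE (Y ^ k) := by
      unfold EE
      refine Finset.le_sup (f := fun M : ℕ => M.divisors.card) (Finset.mem_Icc.2 ⟨?_, ?_⟩)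
      · exact Nat.mul_pos hm1 hm1
      · exact Nat.mul_le_mul hm2 hm2
    exact_mod_cast h2.trans (Nat.pow_le_pow_left h3 k)
  have h7 := Finset.sum_le_sum hfib
  rw [← Finset.mul_sum] at h7
  have h8 := sum_inv_le (Y ^ k)
  push_cast at h8
  have h9 : 0 ≤ (EE (Y ^ k) : ℝ) ^ k := by positivity
  calc (1 / (N : ℝ)) * _ ≤ (1 / (N : ℝ)) * ((EE (Y ^ k) : ℝ) ^ k *
        (1 + Real.log ((Y : ℝ) ^ k))) := by
        refine mul_le_mul_of_nonneg_left (h7.trans ?_) (by positivity)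
        exact mul_le_mul_of_nonneg_left h8 h9
    _ = _ := by ring

theorem BX : S_BX := by
  classical
  intro k ε hε
  obtain ⟨C1, hC1, hMV⟩ := Pool.Agent.TH928.GS.t_MV
  set δ : ℝ := ε / (2 * (k + 1)) with hδ
  have hδ0 : 0 < δ := by rw [hδ]; positivity
  obtain ⟨C2, hC2, hE⟩ := EEp_le hδ0 k
  obtain ⟨C3, hC3, hL⟩ := logp_le hδ0 1
  refine ⟨max 1 ((2 * C1) ^ k * C2 * C3), le_max_left _ _, ?_⟩
  intro H N Y hN hNY hYH
  have hN1 : (1:ℝ) ≤ N := by exact_mod_cast hN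
  have hN0 : (0:ℝ) < N := by linarith
  have hY : 1 ≤ Y := by nlinarith
  have hY1 : (1:ℝ) ≤ Y := by exact_mod_cast hY
  have hH : 1 ≤ H := hY1.trans hYH
  have hH0 : 0 < H := by linarith
  have h1 := tls hC1 hMV hH k (fun _ => true) (rest k Y N) (fun n => n) cf 1
    (fun n hn i => by
      have h := mem_box.1 (Finset.mem_filter.1 hn).1 i
      refine ⟨h.1, ?_⟩
      have : (n i : ℝ) ≤ Y := by exact_mod_cast h.2
      exact this.trans hYH)
    (fun n hn => by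
      rw [Finset.card_le_one]
      intro a ha b hb
      rw [(Finset.mem_filter.1 ha).2, (Finset.mem_filter.1 hb).2])
  have e1 : ∀ γ : Fin k → ℝ, DS Y γ - AN2 N γ = ∑ n ∈ rest k Y N, cf n * ∏ j, chs true (n j) (γ j) :=
    fun γ => diff_eq hNY γ
  simp only [e1]
  refine h1.trans (ENNReal.ofReal_le_ofReal ?_)
  rw [Nat.cast_one, one_mul]
  have h2 := rest_sum (k := k) hN hY
  have hYk : 1 ≤ Y ^ k := Nat.one_le_pow _ _ hY
  have hYk1 : (1:ℝ) ≤ (Y : ℝ) ^ k := one_le_pow₀ hY1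
  have h3 := hE (Y ^ k) hYk
  push_cast at h3
  have h4 := hL ((Y : ℝ) ^ k) hYk1
  rw [pow_one] at h4
  have h5 : ((Y : ℝ) ^ k) ^ δ ≤ H ^ (ε / 2) := by
    rw [← Real.rpow_natCast, ← Real.rpow_mul (by positivity)]
    calc (Y : ℝ) ^ ((k : ℝ) * δ) ≤ (Y : ℝ) ^ (ε / 2) := by
          refine Real.rpow_le_rpow_of_exponent_le hY1 ?_
          rw [hδ]
          have hk : (0:ℝ) ≤ k := Nat.cast_nonneg k
          rw [mul_div_assoc', div_le_div_iff₀ (by positivity) (by norm_num)]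
          nlinarith
      _ ≤ H ^ (ε / 2) := Real.rpow_le_rpow (by positivity) hYH (by positivity)
  have h30 : (EE (Y ^ k) : ℝ) ^ k ≤ C2 * H ^ (ε / 2) :=
    h3.trans (mul_le_mul_of_nonneg_left h5 (by linarith))
  have h40 : 1 + Real.log ((Y : ℝ) ^ k) ≤ C3 * H ^ (ε / 2) :=
    h4.trans (mul_le_mul_of_nonneg_left h5 (by linarith))
  have hlog0 : 0 ≤ 1 + Real.log ((Y : ℝ) ^ k) := by
    have := Real.log_nonneg hYk1
    linarith
  have hHe : H ^ (ε / 2) * H ^ (ε / 2) = H ^ ε := by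
    rw [← Real.rpow_add hH0]
    congr 1
    ring
  calc (2 * C1 * H) ^ k * ∑ q ∈ rest k Y N, ‖cf q‖ ^ 2
      ≤ (2 * C1 * H) ^ k * ((EE (Y ^ k) : ℝ) ^ k * (1 + Real.log ((Y : ℝ) ^ k)) / N) := by gcongr
    _ ≤ (2 * C1 * H) ^ k * ((C2 * H ^ (ε / 2)) * (C3 * H ^ (ε / 2)) / N) := by gcongr
    _ = ((2 * C1) ^ k * C2 * C3) * H ^ k * (H ^ (ε / 2) * H ^ (ε / 2)) / N := by
        rw [mul_pow (2 * C1) H]; ring
    _ = ((2 * C1) ^ k * C2 * C3) * H ^ k * H ^ ε / N := by rw [hHe]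
    _ ≤ _ := by
        gcongr
        exact le_max_right _ _

end

end Pool.Agent.Y165.QF.Bx
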