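import Pool.Agent.Y752.QF.Stm
import Pool.Agent.Y752.SR.K4
import Pool.Agent.TH521.GS.Rep

set_option autoImplicit false

/-! Project QF, job QF-GA: the hyperbolic sum and the prediction with partial sums. -/

namespace Pool.Agent.Y165.QF

open MeasureTheory Set Filter Complex Topology
open Pool.Agent.TH612.GS (mP zN)
open Pool.Agent.TH612.CF (pw pw_apply)
open Pool.Agent.TH521.GS (mor)
open Pool.Agent.Y752.QF
open Pool.Agent.Y752.SR (sum_inv_le logp_le dbl_sum)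
open scoped ENNReal

noncomputable section

variable {k : ℕ}

lemma le_re (γ : Fin k → ℝ) (e : Fin k × Fin k) : (le γ e).re = 0 := by
  unfold le
  simp

lemma le_cont (e : Fin k × Fin k) : Continuous fun γ : Fin k → ℝ => le γ e := by
  unfold le
  fun_prop

/-- the number of edges -/
def ned (k : ℕ) : ℕ := (Ed k).card

lemma zN_le {N : ℕ} (γ : Fin k → ℝ) (e : Fin k × Fin k) :
    ‖zN N (1 + le γ e)‖ ≤ 1 + Real.log N := by
  unfold zN
  refine (norm_sum_le _ _).trans ?_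
  refine le_trans (le_of_eq ?_) (sum_inv_le N)
  refine Finset.sum_congr rfl fun n hn => ?_
  have hn1 := (Finset.mem_Icc.1 hn).1
  rw [Complex.norm_natCast_cpow_of_pos (by omega)]
  have : (-(1 + le γ e)).re = -1 := by
    rw [neg_re, add_re, le_re, one_re, add_zero]
  rw [this, Real.rpow_neg_one]

lemma QQ2_le {N : ℕ} (hN : 1 ≤ N) (γ : Fin k → ℝ) : ‖QQ2 N γ‖ ≤ (1 + Real.log N) ^ ned k := by
  unfold QQ2 ned
  rw [norm_prod]
  refine (Finset.prod_le_prod (fun _ _ => norm_nonneg _) fun e _ => zN_le (N := N) γ e).trans ?_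
  rw [Finset.prod_const]

lemma cpow_cont {n : ℕ} (hn : 1 ≤ n) {f : (Fin k → ℝ) → ℂ} (hf : Continuous f) :
    Continuous fun γ : Fin k → ℝ => (n : ℂ) ^ (f γ) := by
  have hn0 : (n : ℂ) ≠ 0 := by exact_mod_cast (by omega : n ≠ 0)
  exact Continuous.const_cpow hf (Or.inl hn0)

lemma QQ2_cont (N : ℕ) : Continuous fun γ : Fin k → ℝ => QQ2 N γ := by
  unfold QQ2 zN
  refine continuous_finsetProd _ fun e _ => continuous_finsetSum _ fun n hn => ?_
  exact cpow_cont (Finset.mem_Icc.1 hn).1 ((continuous_const.add (le_cont e)).neg)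

lemma pw_cont (e : Fin k × Fin k) (n : ℕ) : Continuous fun γ : Fin k → ℝ => pw (-le γ e) n := by
  rcases Nat.eq_zero_or_pos n with h | h
  · subst h
    simp only [ArithmeticFunction.map_zero]
    exact continuous_const
  · simp only [pw_apply _ (by omega : n ≠ 0)]
    exact cpow_cont h (le_cont e).neg

lemma prod_cont (s : Finset (Fin k × Fin k)) :
    ∀ n : ℕ, Continuous fun γ : Fin k → ℝ => (∏ e ∈ s, pw (-le γ e)) n := by
  classical
  induction s using Finset.induction_on with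
  | empty =>
    intro n
    simp only [Finset.prod_empty]
    exact continuous_const
  | insert a s ha ih =>
    intro n
    simp only [Finset.prod_insert ha, ArithmeticFunction.mul_apply]
    exact continuous_finsetSum _ fun p _ => (pw_cont a p.1).mul (ih p.2)

lemma PP2_cont (W : ℕ) : Continuous fun γ : Fin k → ℝ => PP2 W γ := by
  unfold PP2 XX2
  exact continuous_finsetSum _ fun m _ => (prod_cont _ m).div_const _

lemma AN_ps (N : ℕ) (γ : Fin k → ℝ) (ps : ArithmeticFunction ℂ)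
    (hps : ∀ m : ℕ, 1 ≤ m → D2 γ m = (XX2 γ * ps) m) : AN2 N γ =
    ∑ b ∈ Finset.Icc 1 N, (ps b * (b : ℂ)⁻¹) * PP2 (N / b) γ := by
  have e1 : AN2 N γ = ∑ M ∈ Finset.Icc 1 N, ∑ p ∈ M.divisorsAntidiagonal,
      (fun n m : ℕ => (ps m * (m : ℂ)⁻¹) * ((n : ℂ)⁻¹ * XX2 γ n)) p.1 p.2 := by
    unfold AN2
    refine Finset.sum_congr rfl fun M hM => ?_
    rw [hps M (Finset.mem_Icc.1 hM).1, ArithmeticFunction.mul_apply, div_eq_mul_inv, Finset.sum_mul]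
    refine Finset.sum_congr rfl fun p hp => ?_
    obtain ⟨h1, _⟩ := Nat.mem_divisorsAntidiagonal.1 hp
    simp only
    rw [← h1]
    push_cast
    rw [mul_inv]
    ring
  refine e1.trans ((dbl_sum le_rfl (fun n m : ℕ => (ps m * (m : ℂ)⁻¹) * ((n : ℂ)⁻¹ *
    XX2 γ n))).trans ?_)
  refine Finset.sum_congr rfl fun b hb => ?_
  have hb1 := (Finset.mem_Icc.1 hb).1
  unfold PP2
  rw [Finset.mul_sum, ← Finset.sum_filter]
  refine Finset.sum_congr ?_ fun n _ => ?_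
  · ext n
    rw [Finset.mem_filter, Finset.mem_Icc, Finset.mem_Icc, Nat.le_div_iff_mul_le hb1]
    constructor
    · rintro ⟨⟨h1, h2⟩, h3⟩
      exact ⟨h1, by rw [mul_comm]; exact h3⟩
    · rintro ⟨h1, h2⟩
      refine ⟨⟨h1, ?_⟩, by rw [mul_comm]; exact h2⟩
      exact (Nat.le_mul_of_pos_right _ hb1).trans h2
  · rw [div_eq_mul_inv, mul_comm ((n : ℂ)⁻¹)]

section pointwise

variable (gg : ℕ → ℝ) (hg0 : ∀ b, 0 ≤ gg b)
  (hgs : ∀ σ : ℝ, 1 / 2 < σ → Summable fun b : ℕ => gg b * (b : ℝ) ^ (-σ))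

include hg0 hgs in
lemma gg_fin_le {σ : ℝ} (hσ : 1 / 2 < σ) (s : Finset ℕ) :
    ∑ b ∈ s, gg b * (b : ℝ) ^ (-σ) ≤ ∑' b : ℕ, gg b * (b : ℝ) ^ (-σ) :=
  (hgs σ hσ).sum_le_tsum _ fun b _ => mul_nonneg (hg0 _) (by positivity)

include hgs in
lemma ps_summable (ps : ArithmeticFunction ℂ) (hle : ∀ b, ‖ps b‖ ≤ gg b) :
    Summable fun n : ℕ => ps n * (n : ℂ)⁻¹ := by
  refine Summable.of_norm_bounded (hgs 1 (by norm_num)) fun n => ?_
  rw [norm_mul, norm_inv, Complex.norm_natCast, Real.rpow_neg_one]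
  exact mul_le_mul_of_nonneg_right (hle n) (by positivity)

include hg0 hgs in
lemma ps_tail (ps : ArithmeticFunction ℂ) (hle : ∀ b, ‖ps b‖ ≤ gg b) {N : ℕ} (hN : 1 ≤ N)
    {η : ℝ} (hη : 0 < η) (hη1 : η < 1 / 2) :
    ‖∑' n : ℕ, ps n * (n : ℂ)⁻¹ - ∑ b ∈ Finset.Icc 1 N, ps b * (b : ℂ)⁻¹‖ ≤
      (∑' b : ℕ, gg b * (b : ℝ) ^ (-(1 / 2 + η))) * (N : ℝ) ^ (-(1 / 2 - η)) := by
  have hN0 : (0:ℝ) < N := by exact_mod_cast hN
  have h1 := (ps_summable gg hgs ps hle).sum_add_tsum_compl (s := Finset.Icc 1 N)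
  rw [← h1, add_sub_cancel_left]
  have hs := hgs (1 / 2 + η) (by linarith)
  have hs' := (hs.mul_right ((N : ℝ) ^ (-(1 / 2 - η)))).subtype ((Finset.Icc 1 N : Finset ℕ) : Set ℕ)ᶜ
  refine (tsum_of_norm_bounded hs'.hasSum fun b => ?_).trans ?_
  · obtain ⟨b, hb⟩ := b
    have hb' : b ∉ Finset.Icc 1 N := fun h => hb (Finset.mem_coe.2 h)
    simp only [Function.comp]
    rcases Nat.eq_zero_or_pos b with h | h
    · subst h
      rw [ArithmeticFunction.map_zero, zero_mul, norm_zero]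
      exact mul_nonneg (mul_nonneg (hg0 _) (by positivity)) (by positivity)
    · have hNb : N < b := by
        by_contra hcon
        exact hb' (Finset.mem_Icc.2 ⟨h, by omega⟩)
      have hNb' : (N : ℝ) ≤ b := by exact_mod_cast hNb.le
      have hb0 : (0:ℝ) < b := by exact_mod_cast h
      rw [norm_mul, norm_inv, Complex.norm_natCast]
      have h2 : (b : ℝ)⁻¹ = (b : ℝ) ^ (-(1 / 2 + η)) * (b : ℝ) ^ (-(1 / 2 - η)) := by
        rw [← Real.rpow_add hb0, ← Real.rpow_neg_one]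
        congr 1
        ring
      have h3 : (b : ℝ) ^ (-(1 / 2 - η)) ≤ (N : ℝ) ^ (-(1 / 2 - η)) :=
        Real.rpow_le_rpow_of_nonpos hN0 hNb' (by linarith)
      rw [h2, ← mul_assoc]
      have h4 := hle b
      have h5 := hg0 b
      gcongr
  · have h6 := (hs.mul_right ((N : ℝ) ^ (-(1 / 2 - η)))).tsum_subtype_le _
      ((Finset.Icc 1 N : Finset ℕ) : Set ℕ)ᶜ (fun b => mul_nonneg (mul_nonneg (hg0 _) (by positivity)) (by positivity))
    refine le_trans h6 ?_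
    rw [tsum_mul_right]

include hg0 hgs in
lemma cs_b (γ : Fin k → ℝ) (ps : ArithmeticFunction ℂ) (hle : ∀ b, ‖ps b‖ ≤ gg b) (N : ℕ)
    {η : ℝ} (hη : 0 < η) :
    ‖∑ b ∈ Finset.Icc 1 N, (ps b * (b : ℂ)⁻¹) * (QQ2 N γ - PP2 (N / b) γ)‖ ^ 2 ≤
      (∑' b : ℕ, gg b * (b : ℝ) ^ (-(1 / 2 + η))) * ∑ b ∈ Finset.Icc 1 N, (gg b *
        (b : ℝ) ^ (-(3 / 2 - η))) * ‖QQ2 N γ - PP2 (N / b) γ‖ ^ 2 := by
  have h1 : ‖∑ b ∈ Finset.Icc 1 N, (ps b * (b : ℂ)⁻¹) * (QQ2 N γ - PP2 (N / b) γ)‖ ≤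
      ∑ b ∈ Finset.Icc 1 N, gg b * (b : ℝ)⁻¹ * ‖QQ2 N γ - PP2 (N / b) γ‖ := by
    refine norm_sum_le_of_le _ fun b _ => ?_
    rw [norm_mul, norm_mul, norm_inv, Complex.norm_natCast]
    have h4 := hle b
    gcongr
  have h2 := Finset.sum_sq_le_sum_mul_sum_of_sq_le_mul (Finset.Icc 1 N)
    (f := fun b => gg b * (b : ℝ) ^ (-(1 / 2 + η)))
    (g := fun b => (gg b * (b : ℝ) ^ (-(3 / 2 - η))) * ‖QQ2 N γ - PP2 (N / b) γ‖ ^ 2)
    (r := fun b => gg b * (b : ℝ)⁻¹ * ‖QQ2 N γ - PP2 (N / b) γ‖)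
    (fun b _ => mul_nonneg (hg0 _) (by positivity))
    (fun b _ => mul_nonneg (mul_nonneg (hg0 _) (by positivity)) (by positivity))
    (fun b hb => by
      have hb1 := (Finset.mem_Icc.1 hb).1
      have hb0 : (0:ℝ) < b := by exact_mod_cast hb1
      have e1 : (b : ℝ) ^ (-(1 / 2 + η)) * (b : ℝ) ^ (-(3 / 2 - η)) = ((b : ℝ)⁻¹) ^ 2 := by
        rw [← Real.rpow_add hb0, ← Real.rpow_neg_one, ← Real.rpow_natCast, ← Real.rpow_mul hb0.le]
        congr 1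
        push_cast
        ring
      have e2 : ∀ x r : ℝ, (x * (b : ℝ) ^ (-(1 / 2 + η))) * ((x * (b : ℝ) ^ (-(3 / 2 - η))) * r ^ 2) =
          x ^ 2 * ((b : ℝ) ^ (-(1 / 2 + η)) * (b : ℝ) ^ (-(3 / 2 - η))) * r ^ 2 := fun x r => by ring
      rw [e2, e1]
      refine le_of_eq ?_
      ring)
  refine (pow_le_pow_left₀ (norm_nonneg _) h1 2).trans (h2.trans ?_)
  refine mul_le_mul_of_nonneg_right (gg_fin_le gg hg0 hgs (by linarith) _) ?_
  exact Finset.sum_nonneg fun b _ => mul_nonneg (mul_nonneg (hg0 _) (by positivity)) (by positivity)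

end pointwise

lemma diff_id (N : ℕ) (γ : Fin k → ℝ) (ps : ArithmeticFunction ℂ)
    (hps : ∀ m : ℕ, 1 ≤ m → D2 γ m = (XX2 γ * ps) m) (hA : ∑' b : ℕ, ps b / b = arithA γ) :
    arithA γ * QQ2 N γ - AN2 N γ =
    ∑ b ∈ Finset.Icc 1 N, (ps b * (b : ℂ)⁻¹) * (QQ2 N γ - PP2 (N / b) γ) +
      (∑' n : ℕ, ps n * (n : ℂ)⁻¹ - ∑ b ∈ Finset.Icc 1 N, ps b * (b : ℂ)⁻¹) * QQ2 N γ := by
  rw [AN_ps N γ ps hps, ← hA]
  simp only [mul_sub, div_eq_mul_inv]
  rw [Finset.sum_sub_distrib, ← Finset.sum_mul]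
  ring

lemma floor_lb {N b : ℕ} (hb : 1 ≤ b) (hbN : b ≤ N) : (N : ℝ) / (2 * b) ≤ ((N / b : ℕ) : ℝ) := by
  have h1 : 1 ≤ N / b := (Nat.one_le_div_iff hb).2 hbN
  have h2 : N < (N / b + 1) * b := by
    rw [← Nat.div_lt_iff_lt_mul hb]
    exact Nat.lt_succ_self _
  have hb0 : (0:ℝ) < b := by exact_mod_cast hb
  rw [div_le_iff₀ (by positivity)]
  have h3 : (N : ℝ) < ((N / b : ℕ) + 1) * b := by exact_mod_cast h2
  have h4 : (1:ℝ) ≤ ((N / b : ℕ) : ℝ) := by exact_mod_cast h1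
  nlinarith

lemma mP_univ (k : ℕ) {T : ℝ} (hT : 0 ≤ T) : mP (Fin k) T univ = ENNReal.ofReal (T ^ k) := by
  unfold mP
  rw [Measure.pi_univ]
  simp only [Measure.restrict_apply MeasurableSet.univ, univ_inter, Real.volume_Icc, sub_zero]
  rw [Finset.prod_const, Finset.card_univ, Fintype.card_fin, ENNReal.ofReal_pow hT]

/-- the arithmetic factor is bounded -/
theorem arith_bd (h2 : S_PS) (k : ℕ) : ∃ G : ℝ, 0 < G ∧ ∀ γ : Fin k → ℝ, ‖arithA γ‖ ≤ G := by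
  obtain ⟨gg, hg0, hgs, hps⟩ := h2 k
  refine ⟨∑' b : ℕ, gg b * (b : ℝ) ^ (-(1 : ℝ)) + 1, ?_, fun γ => ?_⟩
  · have : 0 ≤ ∑' b : ℕ, gg b * (b : ℝ) ^ (-(1 : ℝ)) :=
      tsum_nonneg fun b => mul_nonneg (hg0 _) (by positivity)
    linarith
  · obtain ⟨ps, hle, _, hA⟩ := hps γ
    rw [← hA]
    have h3 : ‖∑' b : ℕ, ps b / b‖ ≤ ∑' b : ℕ, gg b * (b : ℝ) ^ (-(1 : ℝ)) := by
      refine tsum_of_norm_bounded (hgs 1 (by norm_num)).hasSum fun n => ?_
      rw [norm_div, Complex.norm_natCast, Real.rpow_neg_one, div_eq_mul_inv]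
      exact mul_le_mul_of_nonneg_right (hle n) (by positivity)
    linarith

theorem GA (h1 : S_RR) (h2 : S_PS) : S_GA := by
  intro k ε hε
  obtain ⟨gg, hg0, hgs, hps⟩ := h2 k
  set η : ℝ := min (ε / 4) (1 / 4) with hη
  have hη0 : 0 < η := lt_min (by positivity) (by norm_num)
  have hη1 : η < 1 / 2 := lt_of_le_of_lt (min_le_right _ _) (by norm_num)
  have hη2 : η ≤ ε / 4 := min_le_left _ _
  obtain ⟨C2, hC2, h2'⟩ := h1 k (ε / 2) (by positivity)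
  obtain ⟨C4, hC4, h4⟩ := logp_le (δ := ε / 2) (by positivity) (2 * ned k)
  set G : ℝ := ∑' b : ℕ, gg b * (b : ℝ) ^ (-(1 / 2 + η)) with hG
  have hG0 : 0 ≤ G := tsum_nonneg fun b => mul_nonneg (hg0 _) (by positivity)
  refine ⟨max 1 (4 * G ^ 2 * C2 + 2 * G ^ 2 * C4), le_max_left _ _, ?_⟩
  intro H θ N hθ hN hNk
  have hN1 : (1:ℝ) ≤ N := by exact_mod_cast hN
  have hN0 : (0:ℝ) < N := by linarith
  have hNH : (N : ℝ) ≤ H := by
    refine le_trans ?_ hNk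
    calc (N : ℝ) = (N : ℝ) ^ 1 := (pow_one _).symm
      _ ≤ (N : ℝ) ^ (k + 1) := pow_le_pow_right₀ hN1 (by omega)
  have hH : 1 ≤ H := hN1.trans hNH
  have hH0 : 0 < H := by linarith
  set L : ℝ := 1 + Real.log N with hL
  have hL0 : 0 ≤ L := by
    have := Real.log_nonneg hN1
    linarith
  set B : ℝ := 2 * (G * (N : ℝ) ^ (-(1 / 2 - η)) * L ^ ned k) ^ 2 with hB
  have hB0 : 0 ≤ B := by positivity
  -- the measurable majorant
  set Φ : (Fin k → ℝ) → ℝ≥0∞ := fun γ => (∑ b ∈ Finset.Icc 1 N,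
      ENNReal.ofReal (2 * G * (gg b * (b : ℝ) ^ (-(3 / 2 - η)))) *
        ENNReal.ofReal (‖QQ2 N γ - PP2 (N / b) γ‖ ^ 2)) + ENNReal.ofReal B with hΦ
  have hm : ∀ b : ℕ, Measurable fun γ : Fin k → ℝ =>
      ENNReal.ofReal (2 * G * (gg b * (b : ℝ) ^ (-(3 / 2 - η)))) *
        ENNReal.ofReal (‖QQ2 N γ - PP2 (N / b) γ‖ ^ 2) := fun b =>
    (mor (((QQ2_cont N).sub (PP2_cont (N / b))).norm.pow 2)).const_mul _
  have hΦm : Measurable Φ := (Finset.measurable_fun_sum _ fun b _ => hm b).add measurable_const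
  -- pointwise
  have hpt : ∀ γ : Fin k → ℝ, ENNReal.ofReal (‖AN2 N γ - arithA γ * QQ2 N γ‖ ^ 2) ≤ Φ γ := by
    intro γ
    obtain ⟨ps, hle, hmul, hA⟩ := hps γ
    have e1 : (∑ b ∈ Finset.Icc 1 N, ENNReal.ofReal (2 * G * (gg b * (b : ℝ) ^ (-(3 / 2 - η)))) *
        ENNReal.ofReal (‖QQ2 N γ - PP2 (N / b) γ‖ ^ 2)) = ENNReal.ofReal (2 * (G *
        ∑ b ∈ Finset.Icc 1 N, (gg b * (b : ℝ) ^ (-(3 / 2 - η))) * ‖QQ2 N γ - PP2 (N / b) γ‖ ^ 2)) := by
      rw [Finset.mul_sum, Finset.mul_sum, ENNReal.ofReal_sum_of_nonneg fun b _ => by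
        have := hg0 b
        positivity]
      refine Finset.sum_congr rfl fun b _ => ?_
      have := hg0 b
      rw [← ENNReal.ofReal_mul (by positivity)]
      congr 1
      ring
    have hpos : 0 ≤ 2 * (G * ∑ b ∈ Finset.Icc 1 N, (gg b * (b : ℝ) ^ (-(3 / 2 - η))) *
        ‖QQ2 N γ - PP2 (N / b) γ‖ ^ 2) := by
      have : 0 ≤ ∑ b ∈ Finset.Icc 1 N, (gg b * (b : ℝ) ^ (-(3 / 2 - η))) *
          ‖QQ2 N γ - PP2 (N / b) γ‖ ^ 2 := Finset.sum_nonneg fun b _ => by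
        have := hg0 b
        positivity
      positivity
    rw [hΦ]
    simp only
    rw [e1, ← ENNReal.ofReal_add hpos hB0]
    refine ENNReal.ofReal_le_ofReal ?_
    rw [← norm_neg, neg_sub, diff_id N γ ps hmul hA]
    set U := ∑ b ∈ Finset.Icc 1 N, (ps b * (b : ℂ)⁻¹) * (QQ2 N γ - PP2 (N / b) γ) with hU
    set V := (∑' n : ℕ, ps n * (n : ℂ)⁻¹ - ∑ b ∈ Finset.Icc 1 N, ps b * (b : ℂ)⁻¹) *
      QQ2 N γ with hV
    have k1 : ‖U‖ ^ 2 ≤ G * ∑ b ∈ Finset.Icc 1 N, (gg b * (b : ℝ) ^ (-(3 / 2 - η))) *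
        ‖QQ2 N γ - PP2 (N / b) γ‖ ^ 2 := cs_b gg hg0 hgs γ ps hle N hη0
    have k2 : ‖V‖ ≤ G * (N : ℝ) ^ (-(1 / 2 - η)) * L ^ ned k := by
      rw [hV, norm_mul]
      have k3 := ps_tail gg hg0 hgs ps hle hN hη0 hη1
      exact mul_le_mul k3 (QQ2_le hN γ) (norm_nonneg _) (by positivity)
    have k3 : ‖V‖ ^ 2 ≤ (G * (N : ℝ) ^ (-(1 / 2 - η)) * L ^ ned k) ^ 2 := by gcongr
    have k4 : ‖U + V‖ ^ 2 ≤ 2 * ‖U‖ ^ 2 + 2 * ‖V‖ ^ 2 := by
      calc ‖U + V‖ ^ 2 ≤ (‖U‖ + ‖V‖) ^ 2 := by gcongr; exact norm_add_le _ _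
        _ ≤ _ := by nlinarith [sq_nonneg (‖U‖ - ‖V‖)]
    rw [hB]
    linarith
  -- the integral of the majorant
  have hint : ∫⁻ γ, Φ γ ∂(mP (Fin k) H) ≤
      ENNReal.ofReal (max 1 (4 * G ^ 2 * C2 + 2 * G ^ 2 * C4) * H ^ k * H ^ ε / N) := by
    rw [hΦ]
    rw [lintegral_add_left (Finset.measurable_fun_sum _ fun b _ => hm b),
      lintegral_finsetSum _ fun b _ => hm b, lintegral_const, mP_univ k hH0.le]
    simp only [lintegral_const_mul' _ _ ENNReal.ofReal_ne_top]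
    have hb : ∀ b ∈ Finset.Icc 1 N, ENNReal.ofReal (2 * G * (gg b * (b : ℝ) ^ (-(3 / 2 - η)))) *
        ∫⁻ γ, ENNReal.ofReal (‖QQ2 N γ - PP2 (N / b) γ‖ ^ 2) ∂(mP (Fin k) H) ≤
        ENNReal.ofReal (4 * G * C2 * H ^ k * H ^ (ε / 2) * (N : ℝ) ^ (2 * η) / N *
          (gg b * (b : ℝ) ^ (-(1 / 2 + η)))) := by
      intro b hb
      obtain ⟨hb1, hb2⟩ := Finset.mem_Icc.1 hb
      have hb0 : (0:ℝ) < b := by exact_mod_cast hb1
      have hg := hg0 b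
      have hW : 1 ≤ N / b := (Nat.one_le_div_iff hb1).2 hb2
      have hW0 : (0:ℝ) < ((N / b : ℕ) : ℝ) := by exact_mod_cast hW
      have k1 := h2' H N (N / b) hW (Nat.div_le_self _ _) hNk
      refine (mul_le_mul_right k1 _).trans ?_
      rw [← ENNReal.ofReal_mul (by positivity)]
      refine ENNReal.ofReal_le_ofReal ?_
      have k2 := floor_lb hb1 hb2
      have k3 : C2 * H ^ k * H ^ (ε / 2) / ((N / b : ℕ) : ℝ) ≤
          C2 * H ^ k * H ^ (ε / 2) / ((N : ℝ) / (2 * b)) := by gcongr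
      have k4 : (b : ℝ) ^ (-(3 / 2 - η)) * b = (b : ℝ) ^ (-(1 / 2 + η)) * (b : ℝ) ^ (2 * η) := by
        rw [← Real.rpow_add hb0]
        nth_rewrite 2 [← Real.rpow_one (b : ℝ)]
        rw [← Real.rpow_add hb0]
        congr 1
        ring
      have k5 : (b : ℝ) ^ (2 * η) ≤ (N : ℝ) ^ (2 * η) :=
        Real.rpow_le_rpow hb0.le (by exact_mod_cast hb2) (by positivity)
      calc 2 * G * (gg b * (b : ℝ) ^ (-(3 / 2 - η))) * (C2 * H ^ k * H ^ (ε / 2) / ((N / b : ℕ) : ℝ))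
          ≤ 2 * G * (gg b * (b : ℝ) ^ (-(3 / 2 - η))) *
            (C2 * H ^ k * H ^ (ε / 2) / ((N : ℝ) / (2 * b))) := by gcongr
        _ = 4 * G * C2 * H ^ k * H ^ (ε / 2) / N * (gg b * ((b : ℝ) ^ (-(3 / 2 - η)) * b)) := by
            field_simp
            ring
        _ = 4 * G * C2 * H ^ k * H ^ (ε / 2) / N * (gg b * ((b : ℝ) ^ (-(1 / 2 + η)) *
            (b : ℝ) ^ (2 * η))) := by rw [k4]
        _ ≤ 4 * G * C2 * H ^ k * H ^ (ε / 2) / N * (gg b * ((b : ℝ) ^ (-(1 / 2 + η)) *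
            (N : ℝ) ^ (2 * η))) := by gcongr
        _ = _ := by ring
    refine (add_le_add (Finset.sum_le_sum hb) le_rfl).trans ?_
    have hHe : H ^ (ε / 2) * H ^ (ε / 2) = H ^ ε := by
      rw [← Real.rpow_add hH0]
      congr 1
      ring
    have hNe : (N : ℝ) ^ (2 * η) ≤ H ^ (ε / 2) :=
      (Real.rpow_le_rpow hN0.le hNH (by positivity)).trans
        (Real.rpow_le_rpow_of_exponent_le hH (by linarith))
    rw [← ENNReal.ofReal_sum_of_nonneg fun b _ => by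
        have := hg0 b
        positivity, ← Finset.mul_sum, ← ENNReal.ofReal_mul hB0,
      ← ENNReal.ofReal_add]
    · refine ENNReal.ofReal_le_ofReal ?_
      have k1 : ∑ b ∈ Finset.Icc 1 N, gg b * (b : ℝ) ^ (-(1 / 2 + η)) ≤ G :=
        gg_fin_le gg hg0 hgs (by linarith) _
      have hS0 : 0 ≤ ∑ b ∈ Finset.Icc 1 N, gg b * (b : ℝ) ^ (-(1 / 2 + η)) :=
        Finset.sum_nonneg fun b _ => mul_nonneg (hg0 _) (by positivity)
      have k2 : (G * (N : ℝ) ^ (-(1 / 2 - η)) * L ^ ned k) ^ 2 =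
          G ^ 2 * ((N : ℝ) ^ (2 * η) / N) * L ^ (2 * ned k) := by
        have e1 : ((N : ℝ) ^ (-(1 / 2 - η))) ^ 2 = (N : ℝ) ^ (2 * η) / N := by
          rw [← Real.rpow_natCast, ← Real.rpow_mul hN0.le, ← Real.rpow_sub_one hN0.ne']
          congr 1
          push_cast
          ring
        rw [mul_pow, mul_pow, e1, ← pow_mul, mul_comm (ned k) 2]
      have k3 : L ^ (2 * ned k) ≤ C4 * H ^ (ε / 2) :=
        (h4 N hN1).trans (mul_le_mul_of_nonneg_left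
          (Real.rpow_le_rpow (by linarith) hNH (by positivity)) (by linarith))
      rw [hB, k2]
      calc 4 * G * C2 * H ^ k * H ^ (ε / 2) * (N : ℝ) ^ (2 * η) / N *
            ∑ b ∈ Finset.Icc 1 N, gg b * (b : ℝ) ^ (-(1 / 2 + η)) +
            2 * (G ^ 2 * ((N : ℝ) ^ (2 * η) / N) * L ^ (2 * ned k)) * H ^ k
          ≤ 4 * G * C2 * H ^ k * H ^ (ε / 2) * H ^ (ε / 2) / N * G +
            2 * (G ^ 2 * (H ^ (ε / 2) / N) * (C4 * H ^ (ε / 2))) * H ^ k := by gcongr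
        _ = (4 * G ^ 2 * C2 + 2 * G ^ 2 * C4) * H ^ k * (H ^ (ε / 2) * H ^ (ε / 2)) / N := by ring
        _ = (4 * G ^ 2 * C2 + 2 * G ^ 2 * C4) * H ^ k * H ^ ε / N := by rw [hHe]
        _ ≤ _ := by
            gcongr
            exact le_max_right _ _
    · refine mul_nonneg (by positivity) (Finset.sum_nonneg fun b _ => ?_)
      have := hg0 b
      positivity
    · positivity
  -- Markov
  have hsub : {γ : Fin k → ℝ | θ ≤ ‖AN2 N γ - arithA γ * QQ2 N γ‖ ^ 2} ⊆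
      {γ | ENNReal.ofReal θ ≤ Φ γ} := by
    intro γ hγ
    exact (ENNReal.ofReal_le_ofReal hγ).trans (hpt γ)
  have hθ' : ENNReal.ofReal θ ≠ 0 := by
    rw [Ne, ENNReal.ofReal_eq_zero, not_le]
    exact hθ
  refine (measure_mono hsub).trans ?_
  refine (meas_ge_le_lintegral_div hΦm.aemeasurable hθ' ENNReal.ofReal_ne_top).trans ?_
  refine (ENNReal.div_le_div_right hint _).trans ?_
  rw [← ENNReal.ofReal_div_of_pos hθ]
  refine ENNReal.ofReal_le_ofReal (le_of_eq ?_)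
  rw [div_div]

end

end Pool.Agent.Y165.QF
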